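import Pool.Agent.Y274.MXC

/-!
# Maximal operators of convolution type do not preserve bounded variation

There is one even, compactly supported kernel `φ` such that for some function of bounded variation
the maximal function `M_φ f` is of infinite variation; the functions of bounded variation with this
property are dense and form a countable intersection of open sets, so they are generic.
-/

set_option autoImplicit false

open MeasureTheory Set
open scoped ENNReal

namespace Pool.Agent.Results.MP_0067de_an.GenericFailure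

/-- The maximal operator of convolution type attached to `φ`:
the supremum over `t > 0` of `(φ_t * |f|)(x)`, where `φ_t(y) = t⁻¹ φ(y / t)`. -/
noncomputable def maxConv (φ : ℝ → ℝ) (f : ℝ → ℝ) (x : ℝ) : ℝ :=
  ⨆ t : {t : ℝ // 0 < t}, ∫ y, ((t : ℝ)⁻¹ * φ ((x - y) / (t : ℝ))) * |f y|

/-- The total variation of a function on the real line. -/
noncomputable def Var (f : ℝ → ℝ) : ℝ≥0∞ := eVariationOn f univ

open Pool.Agent.Results.MP_0067de_an.SingularKernel in
lemma maxConv_const (c x y : ℝ) : maxConv ker (fun _ => c) x = maxConv ker (fun _ => c) y := by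
  unfold maxConv
  congr 1
  funext t
  rw [integral_mul_const, integral_mul_const, Pool.Agent.Y274.MXC.integral_scaled t.2,
    Pool.Agent.Y274.MXC.integral_scaled t.2]

/-- **Generic failure of the variation inequality.** There is a kernel `φ` (nonnegative, of
integral one, even and supported in `[-2, 2]`) such that
(1) for every `η > 0` there is a non-constant `f` with `0 ≤ f ≤ η` and `Var f ≤ η` but
`Var (M_φ f) = ∞`;
(2) every function of bounded variation becomes a function whose maximal function has infinite
variation after adding some `h` with `|h| ≤ η`, `Var h ≤ η`, `η > 0` as small as desired;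
(3) for every `m` the functions `f` of bounded variation with `Var (M_φ f) > m` form a set which is
open for the uniform distance. -/
theorem result :
    ∃ φ : ℝ → ℝ, (∀ y, 0 ≤ φ y) ∧ Integrable φ ∧ ∫ y, φ y = 1 ∧
      (∀ y, φ (-y) = φ y) ∧ (∀ y, 2 < |y| → φ y = 0) ∧
      (∀ η : ℝ, 0 < η → ∃ f : ℝ → ℝ, (∀ z, 0 ≤ f z ∧ f z ≤ η) ∧ Var f ≠ 0 ∧
        Var f ≤ ENNReal.ofReal η ∧ Var (maxConv φ f) = ⊤) ∧
      (∀ f : ℝ → ℝ, Var f ≠ ⊤ → ∀ η : ℝ, 0 < η → ∃ h : ℝ → ℝ, (∀ z, |h z| ≤ η) ∧
        Var h ≤ ENNReal.ofReal η ∧ Var (maxConv φ (fun z => f z + h z)) = ⊤) ∧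
      (∀ f : ℝ → ℝ, Var f ≠ ⊤ → ∀ m : ℝ≥0∞, m < Var (maxConv φ f) →
        ∃ δ : ℝ, 0 < δ ∧ ∀ g : ℝ → ℝ, Var g ≠ ⊤ → (∀ z, |g z - f z| ≤ δ) →
          m < Var (maxConv φ g)) := by
  refine ⟨SingularKernel.ker, SingularKernel.ker_nonneg, SingularKernel.integrable_ker,
    SingularKernel.integral_ker, SingularKernel.ker_even, fun y => SingularKernel.ker_support,
    ?_, ?_, ?_⟩
  · intro η hη
    obtain ⟨f, h1, h2, h3⟩ := Pool.Agent.Y274.MXC.nonneg_top hη
    refine ⟨f, h1, ?_, h2, h3⟩
    intro h0
    have hc : f = fun _ => f 0 := by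
      funext x
      have h4 := eVariationOn.edist_le f (mem_univ x) (mem_univ (0 : ℝ))
      have h5 : eVariationOn f univ = 0 := h0
      rw [h5, nonpos_iff_eq_zero, edist_eq_zero] at h4
      exact h4
    have h6 : Var (maxConv SingularKernel.ker f) = 0 := by
      unfold Var eVariationOn
      rw [← bot_eq_zero, eq_bot_iff]
      apply iSup_le
      intro p
      rw [le_bot_iff, bot_eq_zero]
      apply Finset.sum_eq_zero
      intro i _
      rw [hc, maxConv_const (f 0) (p.2.1 (i + 1)) (p.2.1 i), edist_self]
    have h7 : Var (maxConv SingularKernel.ker f) = ⊤ := h3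
    rw [h6] at h7
    exact ENNReal.zero_ne_top h7
  · intro f hf η hη
    exact Pool.Agent.Y274.MXC.dense_top hf hη
  · intro f hf m hm
    exact Pool.Agent.Y274.MXC.open_lt hf hm

end Pool.Agent.Results.MP_0067de_an.GenericFailure
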